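import Pool.Agent.U131.SX.RayX

/-!
# The Stark-Tate conjecture for real quadratic ray class fields and auxiliary primes

`F` is a real quadratic field with the real places `∞₁` (given by `ι`) and `∞₂` (given by `w`), `H`
its ray class field of modulus `𝔪∞₂`, `z` the complex conjugation above `∞₂`, and `Z σ` are the
partial zeta functions modulo `𝔪∞₂`; `Hecke` contains known facts: continuation, `Z σ 0 = 0`, and
the double zero of `Z σ + Z (z σ)` at `0`.

If Q1 holds for the moduli `𝔪𝔮`, where the classes of the primes `𝔮` generate the ray class group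
modulo `𝔪∞₂`, then for all primes `𝔭` not dividing `𝔪` Tate's refined conjecture holds for `H/F`
and the set of places consisting of `∞₁`, `∞₂`, `𝔭` and the primes dividing `𝔪`.
-/

set_option autoImplicit false

namespace Pool.Agent.Results.MP_1ef7cf_nt.AuxiliaryModuli

open NumberField Pool.Agent.U131.SX
open Pool.Agent.K4H33.SK (Qbar GQ)
open Pool.Agent.K4H33.SK.Stmt (Sub Ideals prd)

theorem result (ι w : Qbar →+* ℂ) (F H : Sub) [NumberField F] (𝔪 : Ideals F)
    (art : Ideals F → GQ) (z : GQ) (Z : GQ → ℂ → ℂ) (h : RayBase ι w F H 𝔪 art z Z)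
    (Q : Set (Ideals F)) (hQ : ∀ 𝔮 ∈ Q, Aux F 𝔪 𝔮 ∧ StarkTateMod ι F H (prd F 𝔪 𝔮) art)
    (hg : Generate F H art Q) (𝔭 : Ideals F) (hp : Aux F 𝔪 𝔭) :
    StarkTate ι F H (prd F 𝔪 𝔭) art :=
  tate_all h hQ hg hp

end Pool.Agent.Results.MP_1ef7cf_nt.AuxiliaryModuli
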